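import Pool.Agent.R477.DC.Weight

/-!
# Distributional chaos does not imply `m_n`-distributional chaos, even if a dense subspace of
# vectors has orbits tending to `0`

Real or complex scalars. There are a weighted backward shift `T` on `c_0` (so that the orbits of the
finitely supported vectors are eventually `0`) and a strictly increasing sequence `m_n ≥ n` such
that `T` is distributionally chaotic but not `m_n`-distributionally chaotic.

The weights are `exp (L (i + 1) - L i)` where `L` is the supremum of bumps of heights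
`(n + 2) ^ 2` which are repeated with the period `z (n + 1)`, where `z` grows rapidly. So
`‖T ^ (z n)‖ ≤ e`, hence `T ^ (z n) u` tends to `0` for all `u`, and we take `m_n = z n`.
-/

set_option autoImplicit false

open Filter Topology
open scoped ENNReal ZeroAtInfty

namespace Pool.Agent.Results.MP_890ea4_an.LacunaryTimes

/-- The lower `m_n`-density of `A`: the lower limit of `|A ∩ [1, m_n]| / n`. -/
noncomputable def lowerDensity (m : ℕ → ℝ) (A : Set ℕ) : ℝ≥0∞ :=
  liminf (fun n : ℕ => (({j : ℕ | j ∈ A ∧ 1 ≤ j ∧ (j : ℝ) ≤ m n}.ncard : ℕ) : ℝ≥0∞) / (n : ℝ≥0∞))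
    atTop

/-- The (strictly) increasing sequences in `[1, ∞)` with positive lower limit of `m_n / n`. -/
def InR (m : ℕ → ℝ) : Prop :=
  StrictMono m ∧ (∀ n, 1 ≤ m n) ∧ ∃ c : ℝ, 0 < c ∧ ∀ᶠ n : ℕ in atTop, c ≤ m n / n

/-- `T` is `m_n`-distributionally chaotic. -/
def DistributionallyChaotic {𝕜 : Type} [RCLike 𝕜] {X : Type} [NormedAddCommGroup X]
    [NormedSpace 𝕜 X] (m : ℕ → ℝ) (T : X →L[𝕜] X) : Prop :=
  ∃ (S : Set X) (σ : ℝ), ¬ S.Countable ∧ 0 < σ ∧ ∀ ε : ℝ, 0 < ε → ∀ x ∈ S, ∀ y ∈ S, x ≠ y →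
    lowerDensity m {j : ℕ | dist ((T ^ j) x) ((T ^ j) y) < σ} = 0 ∧
    lowerDensity m {j : ℕ | ε ≤ dist ((T ^ j) x) ((T ^ j) y)} = 0

open Pool.Agent.R477.DC

section proof

variable {𝕜 : Type} [RCLike 𝕜]

/-- The element of `c_0` given by a null sequence. -/
def mk (f : ℕ → 𝕜) (h : Tendsto f atTop (𝓝 0)) : C₀(ℕ, 𝕜) where
  toFun := f
  continuous_toFun := continuous_of_discreteTopology
  zero_at_infty' := by
    rw [cocompact_eq_cofinite, Nat.cofinite_eq_atTop]
    exact h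

lemma tendsto_apply (u : C₀(ℕ, 𝕜)) : Tendsto (fun i => u i) atTop (𝓝 0) := by
  have := u.zero_at_infty'
  rw [cocompact_eq_cofinite, Nat.cofinite_eq_atTop] at this
  exact this

lemma norm_apply_le (u : C₀(ℕ, 𝕜)) (i : ℕ) : ‖u i‖ ≤ ‖u‖ := by
  rw [← ZeroAtInftyContinuousMap.norm_toBCF_eq_norm]
  exact u.toBCF.norm_coe_le_norm i

lemma norm_le_of_forall {u : C₀(ℕ, 𝕜)} {C : ℝ} (hC : 0 ≤ C) (h : ∀ i, ‖u i‖ ≤ C) :
    ‖u‖ ≤ C := by
  rw [← ZeroAtInftyContinuousMap.norm_toBCF_eq_norm]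
  exact (BoundedContinuousFunction.norm_le hC).2 h

/-- The weights. -/
noncomputable def w (i j : ℕ) : ℝ := Real.exp (L (i + j) - L i)

lemma w_pos (i j : ℕ) : 0 < w i j := Real.exp_pos _

lemma w_one_le (i : ℕ) : w i 1 ≤ Real.exp 1 := by
  apply Real.exp_le_exp.2
  have := L_lip (u := (i : ℝ) + (1 : ℕ)) (v := (i : ℝ)) (Nat.cast_nonneg _)
  rw [add_sub_cancel_left] at this
  norm_num at this
  norm_num
  linarith

lemma w_z_le (i n : ℕ) : w i (z n) ≤ Real.exp 1 := by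
  apply Real.exp_le_exp.2
  have := L_period n (u := (i : ℝ)) (Nat.cast_nonneg _)
  linarith

lemma w_mul (i j : ℕ) : w i j * w (i + j) 1 = w i (j + 1) := by
  unfold w
  rw [← Real.exp_add]
  congr 1
  push_cast
  rw [add_assoc]
  ring

lemma shift_tendsto (u : C₀(ℕ, 𝕜)) (j : ℕ) : Tendsto (fun i => u (i + j)) atTop (𝓝 0) :=
  (tendsto_apply u).comp (tendsto_add_atTop_nat j)

/-- The weighted backward shift. -/
noncomputable def T (𝕜 : Type) [RCLike 𝕜] : C₀(ℕ, 𝕜) →L[𝕜] C₀(ℕ, 𝕜) :=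
  LinearMap.mkContinuous
    { toFun := fun u => mk (fun i => ((w i 1 : ℝ) : 𝕜) * u (i + 1)) (by
        rw [tendsto_zero_iff_norm_tendsto_zero]
        have h1 : Tendsto (fun i => Real.exp 1 * ‖u (i + 1)‖) atTop (𝓝 0) := by
          have := (tendsto_zero_iff_norm_tendsto_zero.1 (shift_tendsto u 1)).const_mul (Real.exp 1)
          rwa [mul_zero] at this
        refine squeeze_zero (fun i => norm_nonneg _) (fun i => ?_) h1
        rw [norm_mul, RCLike.norm_ofReal, abs_of_pos (w_pos i 1)]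
        exact mul_le_mul_of_nonneg_right (w_one_le i) (norm_nonneg _))
      map_add' := fun u v => by
        ext i
        show ((w i 1 : ℝ) : 𝕜) * (u (i + 1) + v (i + 1)) =
          ((w i 1 : ℝ) : 𝕜) * u (i + 1) + ((w i 1 : ℝ) : 𝕜) * v (i + 1)
        ring
      map_smul' := fun c u => by
        ext i
        show ((w i 1 : ℝ) : 𝕜) * (c * u (i + 1)) = c * (((w i 1 : ℝ) : 𝕜) * u (i + 1))
        ring }
    (Real.exp 1) (fun u => by
      apply norm_le_of_forall (by positivity)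
      intro i
      show ‖((w i 1 : ℝ) : 𝕜) * u (i + 1)‖ ≤ _
      rw [norm_mul, RCLike.norm_ofReal, abs_of_pos (w_pos i 1)]
      exact mul_le_mul (w_one_le i) (norm_apply_le u _) (norm_nonneg _) (Real.exp_pos _).le)

lemma T_apply (u : C₀(ℕ, 𝕜)) (i : ℕ) : T 𝕜 u i = ((w i 1 : ℝ) : 𝕜) * u (i + 1) := rfl

lemma T_pow_apply (u : C₀(ℕ, 𝕜)) (j i : ℕ) :
    ((T 𝕜) ^ j) u i = ((w i j : ℝ) : 𝕜) * u (i + j) := by
  induction j generalizing u with
  | zero => simp [w]
  | succ j ih =>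
    rw [pow_succ, mul_apply_eq_comp, ih, T_apply, ← mul_assoc, ← RCLike.ofReal_mul, w_mul,
      add_assoc]

lemma norm_T_pow_apply (u : C₀(ℕ, 𝕜)) (j i : ℕ) :
    ‖((T 𝕜) ^ j) u i‖ = w i j * ‖u (i + j)‖ := by
  rw [T_pow_apply, norm_mul, RCLike.norm_ofReal, abs_of_pos (w_pos i j)]

/-- The finitely supported vectors. -/
def X0 (𝕜 : Type) [RCLike 𝕜] : Submodule 𝕜 C₀(ℕ, 𝕜) where
  carrier := {u | ∃ N, ∀ i, N ≤ i → u i = 0}
  zero_mem' := ⟨0, fun i _ => rfl⟩
  add_mem' := by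
    rintro u v ⟨M, hM⟩ ⟨N, hN⟩
    refine ⟨max M N, fun i hi => ?_⟩
    show u i + v i = 0
    rw [hM i (le_of_max_le_left hi), hN i (le_of_max_le_right hi), add_zero]
  smul_mem' := by
    rintro c u ⟨N, hN⟩
    refine ⟨N, fun i hi => ?_⟩
    show c * u i = 0
    rw [hN i hi, mul_zero]

lemma X0_dense : Dense (X0 𝕜 : Set C₀(ℕ, 𝕜)) := by
  intro u
  rw [Metric.mem_closure_iff]
  intro ε hε
  obtain ⟨N, hN⟩ := (Metric.tendsto_atTop.1 (tendsto_apply u)) (ε / 2) (by positivity)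
  set v : C₀(ℕ, 𝕜) := mk (fun i => if i < N then u i else 0) (by
    refine tendsto_const_nhds.congr' ?_
    filter_upwards [eventually_ge_atTop N] with i hi
    rw [if_neg (not_lt.2 hi)]) with hv
  refine ⟨v, ⟨N, fun i hi => if_neg (not_lt.2 hi)⟩, ?_⟩
  rw [dist_eq_norm]
  refine lt_of_le_of_lt (norm_le_of_forall (C := ε / 2) (by positivity) fun i => ?_) (by linarith)
  show ‖u i - (if i < N then u i else 0)‖ ≤ ε / 2
  split_ifs with h
  · rw [sub_self, norm_zero]; positivity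
  · have := hN i (by omega)
    rw [dist_zero_right] at this
    rw [sub_zero]
    exact this.le

lemma X0_null (u : C₀(ℕ, 𝕜)) (hu : u ∈ X0 𝕜) :
    Tendsto (fun n : ℕ => ((T 𝕜) ^ n) u) atTop (𝓝 0) := by
  obtain ⟨N, hN⟩ := hu
  refine tendsto_const_nhds.congr' ?_
  filter_upwards [eventually_ge_atTop N] with n hn
  ext i
  rw [T_pow_apply, hN (i + n) (by omega), mul_zero]
  rfl

/-- The orbit of every vector tends to `0` along the times `z n`. -/
lemma z_null (u : C₀(ℕ, 𝕜)) : Tendsto (fun n : ℕ => ((T 𝕜) ^ (z n)) u) atTop (𝓝 0) := by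
  rw [Metric.tendsto_atTop]
  intro ε hε
  obtain ⟨N, hN⟩ := (Metric.tendsto_atTop.1 (tendsto_apply u)) (ε / (2 * Real.exp 1))
    (by positivity)
  refine ⟨N, fun n hn => ?_⟩
  rw [dist_zero_right]
  refine lt_of_le_of_lt (norm_le_of_forall (C := ε / 2) (by positivity) fun i => ?_) (by linarith)
  rw [norm_T_pow_apply]
  have h1 := hN (i + z n) (by have := le_z n; omega)
  rw [dist_zero_right] at h1
  calc w i (z n) * ‖u (i + z n)‖ ≤ Real.exp 1 * (ε / (2 * Real.exp 1)) :=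
        mul_le_mul (w_z_le i n) h1.le (norm_nonneg _) (Real.exp_pos _).le
    _ = ε / 2 := by
      have := Real.exp_pos 1
      field_simp

lemma xr_tendsto : Tendsto (fun i : ℕ => ((xr i : ℝ) : 𝕜)) atTop (𝓝 0) := by
  rw [tendsto_zero_iff_norm_tendsto_zero]
  simp only [RCLike.norm_ofReal]
  rw [Metric.tendsto_atTop]
  intro ε hε
  obtain ⟨n, hn⟩ := exists_pow_lt_of_lt_one hε (show (1 / 2 : ℝ) < 1 by norm_num)
  refine ⟨K n + 1, fun i hi => ?_⟩
  have h1 := xr_small (n := n) (u := (i : ℝ)) (by exact_mod_cast hi)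
  have h2 := xr_nonneg (i : ℝ)
  have h3 : (1 / 2 : ℝ) ^ (n + 1) ≤ (1 / 2 : ℝ) ^ n :=
    pow_le_pow_of_le_one (by norm_num) (by norm_num) (by omega)
  rw [Real.dist_eq, sub_zero, abs_abs, abs_of_nonneg h2]
  linarith

/-- The distributionally irregular vector. -/
noncomputable def x (𝕜 : Type) [RCLike 𝕜] : C₀(ℕ, 𝕜) := mk (fun i => ((xr i : ℝ) : 𝕜)) xr_tendsto

lemma norm_x_apply (i : ℕ) : ‖x 𝕜 i‖ = xr i := by
  show ‖((xr i : ℝ) : 𝕜)‖ = _
  rw [RCLike.norm_ofReal, abs_of_nonneg (xr_nonneg _)]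

lemma x_large {n j : ℕ} (h1 : D n ≤ j) (h2 : j ≤ K n) : (n : ℝ) + 1 ≤ ‖((T 𝕜) ^ j) (x 𝕜)‖ := by
  have h3 := large (n := n) (t := (j : ℝ)) (by exact_mod_cast h1) (by exact_mod_cast h2)
  refine (h3.trans (le_of_eq ?_)).trans (norm_apply_le _ (K n - j))
  rw [norm_T_pow_apply, norm_x_apply, Nat.sub_add_cancel h2, w, mul_comm]
  congr 2
  push_cast [Nat.cast_sub h2]
  ring_nf

lemma x_small {n j : ℕ} (h1 : K n + 1 ≤ j) (h2 : j ≤ (n + 1) * z (n + 1)) :
    ‖((T 𝕜) ^ j) (x 𝕜)‖ ≤ Real.exp 2 * (1 / 2 : ℝ) ^ n := by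
  apply norm_le_of_forall (by positivity)
  intro i
  rw [norm_T_pow_apply, norm_x_apply, mul_comm]
  have h3 := small (n := n) (t := (j : ℝ)) (u := (i : ℝ)) (Nat.cast_nonneg _)
    (by exact_mod_cast h1) (by exact_mod_cast h2)
  rw [w]
  push_cast
  exact h3

end proof

section density

lemma ncard_le (A : Set ℕ) (m : ℝ) (B : ℕ) (h : ∀ j ∈ A, 1 ≤ j → (j : ℝ) ≤ m → j ≤ B) :
    {j : ℕ | j ∈ A ∧ 1 ≤ j ∧ (j : ℝ) ≤ m}.ncard ≤ B := by
  have h1 : {j : ℕ | j ∈ A ∧ 1 ≤ j ∧ (j : ℝ) ≤ m} ⊆ ((Finset.Icc 1 B : Finset ℕ) : Set ℕ) := by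
    rintro j ⟨h1, h2, h3⟩
    rw [Finset.coe_Icc]
    exact ⟨h2, h j h1 h2 h3⟩
  have h2 := Set.ncard_le_ncard h1 (Finset.finite_toSet _)
  rwa [Set.ncard_coe_finset, Nat.card_Icc, Nat.add_sub_cancel] at h2

/-- A set with few elements in some long intervals has lower density `0`. -/
lemma density_zero (A : Set ℕ) (h : ∀ δ : ℝ, 0 < δ → ∀ N : ℕ, ∃ n B : ℕ, N ≤ n ∧ 0 < n ∧
    (∀ j ∈ A, 1 ≤ j → j ≤ n → j ≤ B) ∧ (B : ℝ) ≤ δ * n) :
    lowerDensity (fun n => (n : ℝ)) A = 0 := by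
  rw [← nonpos_iff_eq_zero]
  refine le_of_forall_gt_imp_ge_of_dense fun a ha => ?_
  obtain ⟨δ, hδ0, hδ⟩ : ∃ δ : ℝ, 0 < δ ∧ ENNReal.ofReal δ ≤ a := by
    by_cases hat : a = ∞
    · exact ⟨1, one_pos, by rw [hat]; exact le_top⟩
    · exact ⟨a.toReal, ENNReal.toReal_pos ha.ne' hat, by rw [ENNReal.ofReal_toReal hat]⟩
  refine (liminf_le_of_frequently_le ?_).trans hδ
  rw [Filter.frequently_atTop]
  intro N
  obtain ⟨n, B, hn, hn0, hB, hBn⟩ := h δ hδ0 N
  refine ⟨n, hn, ?_⟩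
  have h1 := ncard_le A (n : ℝ) B (fun j hj h1 h2 => hB j hj h1 (by exact_mod_cast h2))
  rw [ENNReal.div_le_iff (by exact_mod_cast hn0.ne') (ENNReal.natCast_ne_top n)]
  rw [← ENNReal.ofReal_natCast n, ← ENNReal.ofReal_mul hδ0.le, ← ENNReal.ofReal_natCast]
  apply ENNReal.ofReal_le_ofReal
  have h2 : (({j : ℕ | j ∈ A ∧ 1 ≤ j ∧ (j : ℝ) ≤ n}.ncard : ℕ) : ℝ) ≤ B := by exact_mod_cast h1
  exact h2.trans hBn

/-- A set containing `z l` for all large `l` has positive lower `z n`-density. -/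
lemma density_pos (A : Set ℕ) (l : ℕ) (h : ∀ n, l ≤ n → z n ∈ A) :
    lowerDensity (fun n => (z n : ℝ)) A ≠ 0 := by
  have h1 : ENNReal.ofReal (1 / 2) ≤ lowerDensity (fun n => (z n : ℝ)) A := by
    apply le_liminf_of_le
    · isBoundedDefault
    · filter_upwards [eventually_ge_atTop (2 * l + 1)] with n hn
      rw [ENNReal.le_div_iff_mul_le (Or.inl (by
        have : n ≠ 0 := by omega
        exact_mod_cast this)) (Or.inl (ENNReal.natCast_ne_top n))]
      rw [← ENNReal.ofReal_natCast n, ← ENNReal.ofReal_mul (by norm_num),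
        ← ENNReal.ofReal_natCast]
      apply ENNReal.ofReal_le_ofReal
      have h2 : ((Finset.Icc l n).image z : Set ℕ) ⊆
          {j : ℕ | j ∈ A ∧ 1 ≤ j ∧ (j : ℝ) ≤ (z n : ℝ)} := by
        intro j hj
        simp only [Finset.coe_image, Finset.coe_Icc, Set.mem_image, Set.mem_Icc] at hj
        obtain ⟨i, ⟨hi1, hi2⟩, rfl⟩ := hj
        exact ⟨h i hi1, z_pos i, by exact_mod_cast z_mono hi2⟩
      have hfin : {j : ℕ | j ∈ A ∧ 1 ≤ j ∧ (j : ℝ) ≤ (z n : ℝ)}.Finite := by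
        refine (Set.finite_Iic (z n)).subset ?_
        rintro j ⟨-, -, h3⟩
        exact_mod_cast h3
      have h3 := Set.ncard_le_ncard h2 hfin
      rw [Set.ncard_coe_finset, Finset.card_image_of_injective _ z_strictMono.injective,
        Nat.card_Icc] at h3
      have h4 : ((n + 1 - l : ℕ) : ℝ) ≤
          (({j : ℕ | j ∈ A ∧ 1 ≤ j ∧ (j : ℝ) ≤ (z n : ℝ)}.ncard : ℕ) : ℝ) := by exact_mod_cast h3
      refine le_trans ?_ h4
      have h5 : n + 1 ≤ 2 * (n + 1 - l) := by omega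
      have h6 : ((n : ℝ) + 1) ≤ 2 * ((n + 1 - l : ℕ) : ℝ) := by exact_mod_cast h5
      linarith
  intro h2
  rw [h2] at h1
  have : (0 : ℝ≥0∞) < ENNReal.ofReal (1 / 2) := ENNReal.ofReal_pos.2 (by norm_num)
  exact absurd h1 (not_le.2 this)

end density

/-- Real or complex scalars. There are a Banach space `X`, a bounded operator `T` on `X`, a dense
linear subspace consisting of vectors whose orbits tend to `0`, and a (strictly) increasing sequence
`m_n` in `[1, ∞)` with positive lower limit of `m_n / n`, such that `T` is distributionally chaotic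
but not `m_n`-distributionally chaotic. -/
theorem result (𝕜 : Type) [RCLike 𝕜] :
    ∃ (X : Type) (_ : NormedAddCommGroup X) (_ : NormedSpace 𝕜 X) (_ : CompleteSpace X)
      (m : ℕ → ℝ) (T : X →L[𝕜] X) (X₀ : Submodule 𝕜 X),
      InR m ∧ Dense (X₀ : Set X) ∧
      (∀ x ∈ X₀, Tendsto (fun n : ℕ => (T ^ n) x) atTop (𝓝 0)) ∧
      DistributionallyChaotic (fun n => (n : ℝ)) T ∧ ¬ DistributionallyChaotic m T := by
  refine ⟨C₀(ℕ, 𝕜), inferInstance, inferInstance, inferInstance, fun n => (z n : ℝ), T 𝕜, X0 𝕜,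
    ⟨fun a b h => Nat.cast_lt.2 (z_strictMono h), fun n => Nat.one_le_cast.2 (z_pos n), 1,
      one_pos, ?_⟩, X0_dense, X0_null, ?_, ?_⟩
  · filter_upwards [eventually_gt_atTop 0] with n hn
    have h1 : (0 : ℝ) < n := by exact_mod_cast hn
    rw [le_div_iff₀ h1, one_mul]
    exact_mod_cast (le_z n).le
  · -- distributionally chaotic
    have hx : x 𝕜 ≠ 0 := by
      intro h
      have := x_large (𝕜 := 𝕜) (n := 0) (j := K 0) (by simp [D, K, z]) le_rfl
      rw [h, map_zero, norm_zero] at this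
      norm_num at this
    have hsub : ∀ a b : ℝ, ((a : ℝ) : 𝕜) • x 𝕜 - ((b : ℝ) : 𝕜) • x 𝕜 =
        ((a - b : ℝ) : 𝕜) • x 𝕜 := by
      intro a b
      ext i
      show ((a : ℝ) : 𝕜) * x 𝕜 i - ((b : ℝ) : 𝕜) * x 𝕜 i = ((a - b : ℝ) : 𝕜) * x 𝕜 i
      rw [RCLike.ofReal_sub, sub_mul]
    have hnorm : ∀ (a : ℝ) (v : C₀(ℕ, 𝕜)), ‖((a : ℝ) : 𝕜) • v‖ = |a| * ‖v‖ := by
      intro a v
      rw [norm_smul, RCLike.norm_ofReal]
    have hinj : Function.Injective fun a : ℝ => ((a : ℝ) : 𝕜) • x 𝕜 := by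
      intro a b hab
      have h1 : ‖((a - b : ℝ) : 𝕜) • x 𝕜‖ = 0 := by
        rw [← hsub, norm_eq_zero, sub_eq_zero]
        exact hab
      rw [hnorm] at h1
      rcases mul_eq_zero.1 h1 with h2 | h2
      · rw [abs_eq_zero] at h2
        linarith
      · exact absurd (norm_eq_zero.1 h2) hx
    have hdist : ∀ (a b : ℝ) (j : ℕ), dist (((T 𝕜) ^ j) (((a : ℝ) : 𝕜) • x 𝕜))
        (((T 𝕜) ^ j) (((b : ℝ) : 𝕜) • x 𝕜)) = |a - b| * ‖((T 𝕜) ^ j) (x 𝕜)‖ := by
      intro a b j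
      rw [dist_eq_norm, ← map_sub, hsub, map_smul, hnorm]
    refine ⟨Set.range fun a : ℝ => ((a : ℝ) : 𝕜) • x 𝕜, 1, ?_, one_pos, ?_⟩
    · intro hc
      have h1 : (Set.univ : Set ℝ).Countable := by
        rw [← Set.image_univ] at hc
        exact Set.countable_of_injective_of_countable_image hinj.injOn hc
      exact Cardinal.not_countable_real h1
    · rintro ε hε _ ⟨a, rfl⟩ _ ⟨b, rfl⟩ hab
      have hab' : 0 < |a - b| := by
        rw [abs_pos, sub_ne_zero]
        rintro rfl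
        exact hab rfl
      simp only [hdist]
      constructor
      · apply density_zero
        intro δ hδ N
        obtain ⟨n, hn⟩ := exists_nat_gt (max (1 / |a - b|) (max (1 / δ) N))
        rw [max_lt_iff, max_lt_iff] at hn
        obtain ⟨h1, h2, h3⟩ := hn
        refine ⟨K n, D n, ?_, K_pos n, ?_, ?_⟩
        · have h4 : N < n := by exact_mod_cast h3
          have h5 : n ≤ K n := K_strictMono.id_le n
          omega
        · intro j hj _ hjn
          by_contra hc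
          push Not at hc
          have h4 := x_large (𝕜 := 𝕜) hc.le hjn
          have h5 : |a - b| * ‖((T 𝕜) ^ j) (x 𝕜)‖ < 1 := hj
          rw [div_lt_iff₀ hab'] at h1
          nlinarith
        · rw [K_eq]
          push_cast
          rw [div_lt_iff₀ hδ] at h2
          have h6 : (0 : ℝ) ≤ D n := Nat.cast_nonneg _
          nlinarith
      · apply density_zero
        intro δ hδ N
        have hε' : 0 < ε / (|a - b| * Real.exp 2) := by positivity
        obtain ⟨n₀, hn₀⟩ := exists_pow_lt_of_lt_one hε' (show (1 / 2 : ℝ) < 1 by norm_num)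
        obtain ⟨n₁, hn₁⟩ := exists_nat_gt (max (1 / δ) N)
        rw [max_lt_iff] at hn₁
        obtain ⟨h2, h3⟩ := hn₁
        set n := max n₀ n₁ with hn
        have h4 : (1 / 2 : ℝ) ^ n < ε / (|a - b| * Real.exp 2) :=
          (pow_le_pow_of_le_one (by norm_num) (by norm_num) (le_max_left _ _)).trans_lt hn₀
        have h5 : (n₁ : ℝ) ≤ n := by exact_mod_cast le_max_right n₀ n₁
        have hz : z (n + 1) = 2 * K n := z_succ n
        have hKp := K_pos n
        refine ⟨(n + 1) * z (n + 1), K n, ?_, ?_, ?_, ?_⟩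
        · have h6 : N < n := by exact_mod_cast h3.trans_le h5
          have h7 : n ≤ K n := K_strictMono.id_le n
          rw [hz]
          nlinarith
        · have := z_pos (n + 1)
          positivity
        · intro j hj _ hjn
          by_contra hc
          push Not at hc
          have h6 := x_small (𝕜 := 𝕜) (n := n) (j := j) hc hjn
          have h7 : ε ≤ |a - b| * ‖((T 𝕜) ^ j) (x 𝕜)‖ := hj
          rw [lt_div_iff₀ (by positivity)] at h4
          have h8 := mul_le_mul_of_nonneg_left h6 hab'.le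
          nlinarith
        · rw [hz]
          push_cast
          rw [div_lt_iff₀ hδ] at h2
          have h6 : (0 : ℝ) < K n := by exact_mod_cast hKp
          have h7 : 1 ≤ δ * ((n : ℝ) + 1) := by nlinarith
          nlinarith
  · -- not chaotic along the sequence
    rintro ⟨S, σ, hS, hσ, h⟩
    obtain ⟨u, hu, v, hv, huv⟩ : ∃ u ∈ S, ∃ v ∈ S, u ≠ v := by
      by_contra hc
      push Not at hc
      apply hS
      exact Set.Subsingleton.countable fun u hu v hv => hc u hu v hv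
    obtain ⟨h1, -⟩ := h 1 one_pos u hu v hv huv
    have h2 := z_null (u - v)
    rw [Metric.tendsto_atTop] at h2
    obtain ⟨l, hl⟩ := h2 σ hσ
    refine density_pos _ l (fun n hn => ?_) h1
    have h3 := hl n hn
    rw [dist_zero_right, map_sub] at h3
    show dist _ _ < σ
    rw [dist_eq_norm]
    exact h3

end Pool.Agent.Results.MP_890ea4_an.LacunaryTimes
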